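import Pool.Agent.Y825.IV.Arcs

/-! A chain of inclusive varieties indexed by the real numbers. -/

set_option autoImplicit false

namespace Pool.Agent.Y825.IV

open Pool.Agent.Results.MP_ea093d_al.InfiniteLattice

universe u

/-- An arc semilattice placed in an arbitrary universe. -/
abbrev USArc (r m : ℕ) : Type u := ULift.{u} (SArc r m)

lemma usarc_satisfies (r m : ℕ) (i : IdInclusion) :
    Satisfies (USArc.{u} r m) i ↔
      ∀ φ : FreeSemigroup ℕ →ₙ* SArc r m, ∃ v ∈ i.set, φ i.word = φ v := by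
  constructor
  · intro h φ
    obtain ⟨v, hv, e⟩ := h ((MulEquiv.ulift (α := SArc r m)).symm.toMulHom.comp φ)
    exact ⟨v, hv, (MulEquiv.ulift (α := SArc r m)).symm.injective e⟩
  · intro h φ
    obtain ⟨v, hv, e⟩ := h ((MulEquiv.ulift (α := SArc r m)).toMulHom.comp φ)
    exact ⟨v, hv, (MulEquiv.ulift (α := SArc r m)).injective e⟩

lemma usarc_generated (r m : ℕ) : generatedBy Cube (USArc.{u} r m) := by
  intro i hi
  rw [usarc_satisfies]
  intro φ
  obtain ⟨v, hv, e⟩ := arc_generated r i hi ((inclHom r m).comp φ)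
  exact ⟨v, hv, Subtype.ext e⟩

/-- The inclusive variety attached to the real number `θ`. -/
def V (θ : ℝ) : SemigroupClass.{u} :=
  fun T _ => generatedBy Cube T ∧
    ∀ N k : ℕ, Valid N k → θ * N < k → Satisfies T (law N k)

lemma V_isInclusiveVariety (θ : ℝ) : IsInclusiveVariety (V.{u} θ) := by
  refine ⟨{i | Satisfies Cube i} ∪ {i | ∃ N k : ℕ, Valid N k ∧ θ * N < k ∧ i = law N k}, ?_⟩
  intro T _
  constructor
  · rintro ⟨h1, h2⟩ i (hi | ⟨N, k, hv, hlt, rfl⟩)
    · exact h1 i hi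
    · exact h2 N k hv hlt
  · intro h
    exact ⟨fun i hi => h i (Or.inl hi), fun N k hv hlt => h _ (Or.inr ⟨N, k, hv, hlt, rfl⟩)⟩

lemma V_mono {θ θ' : ℝ} (h : θ ≤ θ') (T : Type u) [Semigroup T] (hT : V θ T) : V θ' T := by
  refine ⟨hT.1, fun N k hv hlt => hT.2 N k hv (lt_of_le_of_lt ?_ hlt)⟩
  exact mul_le_mul_of_nonneg_right h (Nat.cast_nonneg N)

lemma V_strict {θ θ' : ℝ} (h3 : 1 / 3 ≤ θ) (h2 : θ' ≤ 1 / 2) (h : θ < θ') :
    ∃ r m : ℕ, V.{u} θ' (USArc.{u} r m) ∧ ¬ V.{u} θ (USArc.{u} r m) := by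
  obtain ⟨r0, hr0⟩ := exists_nat_gt (1 / (θ' - θ))
  have hpos : 0 < θ' - θ := sub_pos.mpr h
  set r : ℕ := r0 + 1 with hr
  have hn : 1 < (θ' - θ) * (2 * r + 1 : ℕ) := by
    have h4 : 1 < (θ' - θ) * r0 := by
      rw [div_lt_iff₀ hpos] at hr0
      linarith
    have h5 : (r0 : ℝ) ≤ ((2 * r + 1 : ℕ) : ℝ) := by
      exact_mod_cast (by omega : r0 ≤ 2 * r + 1)
    nlinarith
  have hn0 : (0 : ℝ) < ((2 * r + 1 : ℕ) : ℝ) := by positivity
  set m : ℕ := ⌊θ' * (2 * r + 1 : ℕ)⌋₊ with hm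
  have hθ' : 0 ≤ θ' * (2 * r + 1 : ℕ) := by
    have : 0 ≤ θ' := by linarith
    positivity
  have hm1 : (m : ℝ) ≤ θ' * (2 * r + 1 : ℕ) := Nat.floor_le hθ'
  have hm2 : θ' * (2 * r + 1 : ℕ) < m + 1 := Nat.lt_floor_add_one _
  have hm3 : θ * (2 * r + 1 : ℕ) < m := by linarith
  have hv1 : 2 * m ≤ 2 * r + 1 := by
    have : (2 : ℝ) * m ≤ ((2 * r + 1 : ℕ) : ℝ) := by nlinarith
    exact_mod_cast this
  have hv2 : 2 * r + 1 < 3 * m := by
    have : ((2 * r + 1 : ℕ) : ℝ) < 3 * m := by nlinarith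
    exact_mod_cast this
  have hvalid : Valid (2 * r + 1) m := ⟨by omega, by omega, by omega⟩
  refine ⟨r, m, ⟨usarc_generated r m, fun N k hv hlt => ?_⟩, fun hcon => ?_⟩
  · rw [usarc_satisfies]
    refine sarc_satisfies hv ?_
    have hN : (0 : ℝ) < N := by
      have := hv.2.1
      exact_mod_cast (by omega : 0 < N)
    have h6 : (m : ℝ) * N < k * (2 * r + 1 : ℕ) := by
      have h7 : (m : ℝ) * N ≤ θ' * (2 * r + 1 : ℕ) * N := mul_le_mul_of_nonneg_right hm1 hN.le
      have h8 : θ' * N * (2 * r + 1 : ℕ) < k * (2 * r + 1 : ℕ) := mul_lt_mul_of_pos_right hlt hn0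
      linarith [mul_right_comm θ' ((2 * r + 1 : ℕ) : ℝ) (N : ℝ)]
    exact_mod_cast h6
  · have h9 := hcon.2 (2 * r + 1) m hvalid hm3
    rw [usarc_satisfies] at h9
    exact sarc_fails (by omega) (by omega) hvalid le_rfl h9

/-- The parameter attached to a real number: an order isomorphism onto the open interval from `1/3`
to `1/2`. -/
noncomputable def par (x : ℝ) : ℝ := 5 / 12 + (orderIsoIooNegOneOne ℝ x : ℝ) / 12

lemma par_mem (x : ℝ) : 1 / 3 ≤ par x ∧ par x ≤ 1 / 2 := by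
  have h := (orderIsoIooNegOneOne ℝ x).2
  unfold par
  constructor
  · linarith [h.1]
  · linarith [h.2]

lemma par_lt {x y : ℝ} (h : x < y) : par x < par y := by
  have h1 : (orderIsoIooNegOneOne ℝ x : ℝ) < (orderIsoIooNegOneOne ℝ y : ℝ) :=
    (orderIsoIooNegOneOne ℝ).strictMono h
  unfold par
  linarith

/-- If the Boolean semilattice with eight elements is a homomorphic image of a subsemigroup of `S`
then every identical inclusion of `S` holds in it. -/
lemma divisor {S : Type} [Semigroup S] (U : Subsemigroup S) (f : U →ₙ* Cube)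
    (hf : Function.Surjective f) (i : IdInclusion) (hi : Satisfies S i) : Satisfies Cube i := by
  intro φ
  choose g hg using hf
  set φ' : FreeSemigroup ℕ →ₙ* U :=
    FreeSemigroup.lift fun x => g (φ (FreeSemigroup.of x)) with hφ'
  have h1 : f.comp φ' = φ := by
    apply FreeSemigroup.hom_ext
    funext x
    show f (φ' (FreeSemigroup.of x)) = φ (FreeSemigroup.of x)
    rw [hφ', FreeSemigroup.lift_of, hg]
  obtain ⟨v, hv, e⟩ := hi ((MulMemClass.subtype U).comp φ')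
  refine ⟨v, hv, ?_⟩
  have e' : φ' i.word = φ' v := Subtype.ext e
  rw [← h1]
  show f (φ' i.word) = f (φ' v)
  rw [e']

end Pool.Agent.Y825.IV
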